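import Pool.Agent.Lib.MP_06b34c_co.CX.Main
import Pool.Agent.Lib.MP_06b34c_co.CX.Gr
import Pool.Agent.Lib.MP_06b34c_co.CX.Prim

/-!
# MP_06b34c: the Brown-Schnetz conjecture on graphs with `c_2 = -1` is false

There is a four point graph `H` (15 vertices, 28 edges) with `c_2^(p)(H) = -1` for every prime `p`
which is not a decompletion of a `K_5` descendant. Its completion is internally six-edge-connected.
-/

namespace Pool.Agent.Results.MP_06b34c_co.Counterexample

open MP06b MP06b.CX

theorem result : ∃ H : SimpleGraph (Fin 15), IsPrimitiveFourPoint H ∧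
    (∀ p : ℕ, p.Prime → p ^ 2 ∣ zeros p H ∧ c2 p H = -1) ∧
    ¬ IsDecompletionOfDescendant H :=
  ⟨HX, HX_primitive, fun p hp => c2_HX p hp, HX_not⟩

end Pool.Agent.Results.MP_06b34c_co.Counterexample
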