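import Pool.Agent.Lib.MP_06b34c_co.Main

/-!
# MP_06b34c: a formula for the `c_2`-invariant at `p = 2`

For a finite 4-regular simple graph `G` and two different vertices `v`, `r`, the invariant
`c_2^(2)(G - v)` is the parity of the number of Hamiltonian cycles `C` of `G - v - r` such that
`G - v` without the edges of `C` is a spanning tree of `G - v`.
-/

namespace Pool.Agent.Results.MP_06b34c_co.ParityFormula

open MP06b

theorem result {V : Type*} [Fintype V] [DecidableEq V] (G : SimpleGraph V)
    (hG : ∀ x, (G.neighborSet x).ncard = 4) (v r : V) (hvr : v ≠ r) :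
    4 ∣ zeros 2 (del G v) ∧ c2 2 (del G v) = (goodCycles G v r : ZMod 2) :=
  main_c2 G hG v r hvr

end Pool.Agent.Results.MP_06b34c_co.ParityFormula
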