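import Pool.Agent.Lib.MP_06b34c_co.PPFinal

/-!
# MP_06b34c: at least 46 percent of all 4-regular graphs satisfy the conjecture

For every `ε > 0` and all large `n`, the proportion of 4-regular graphs `G` on `Fin n` such that
`c_2^(2)(G - v) = 0` for every vertex `v` is at least `7/15 (1 - exp(-9/2)) - ε`.
-/

namespace Pool.Agent.Results.MP_06b34c_co.PositiveProportion

open MP06b

theorem result (ε : ℝ) (hε : 0 < ε) : ∃ n₀ : ℕ, ∀ n ≥ n₀,
    (7 / 15 * (1 - Real.exp (-(9 / 2))) - ε) *
      (Nat.card {G : SimpleGraph (Fin n) // ∀ x, (G.neighborSet x).ncard = 4} : ℝ) ≤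
      (Nat.card {G : SimpleGraph (Fin n) // (∀ x, (G.neighborSet x).ncard = 4) ∧
        ∀ v, c2 2 (del G v) = 0} : ℝ) := by
  classical
  obtain ⟨n₀, h⟩ := positive_proportion ε hε
  refine ⟨n₀, fun n hn => ?_⟩
  have h1 := h n hn
  have e1 : (Gn n).card = Nat.card {G : SimpleGraph (Fin n) // ∀ x, (G.neighborSet x).ncard = 4} := by
    rw [Nat.card_eq_fintype_card, Fintype.card_subtype]
    unfold Gn Reg4
    congr
  have e2 : ((Gn n).filter fun G => AllZero G).card =
      Nat.card {G : SimpleGraph (Fin n) // (∀ x, (G.neighborSet x).ncard = 4) ∧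
        ∀ v, c2 2 (del G v) = 0} := by
    rw [Nat.card_eq_fintype_card, Fintype.card_subtype]
    unfold Gn Reg4 AllZero
    rw [Finset.filter_filter]
    congr
  rw [← e1, ← e2]
  exact h1

end Pool.Agent.Results.MP_06b34c_co.PositiveProportion
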