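import Pool.Agent.Lib.MP_06b34c_co.Final

/-!
# MP_06b34c: classes of 4-regular graphs whose decompletions do not have `c_2 = -1`

Bipartite graphs, graphs with a vertex set `S` such that `c(G - S) ≥ 2` and `c(G - S) ≥ |S| - 1`,
and graphs with an automorphism of order two fixing at least five vertices.
-/

namespace Pool.Agent.Results.MP_06b34c_co.VanishingClasses

open MP06b

theorem result {V : Type*} [Fintype V] [DecidableEq V] (G : SimpleGraph V)
    (hG : ∀ x, (G.neighborSet x).ncard = 4)
    (h : G.Colorable 2 ∨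
      (∃ S : Finset V, 2 ≤ Nat.card (G.induce {x | x ∉ S}).ConnectedComponent ∧
        S.card ≤ Nat.card (G.induce {x | x ∉ S}).ConnectedComponent + 1) ∨
      (∃ σ : G ≃g G, (∀ x, σ (σ x) = x) ∧ (∃ x, σ x ≠ x) ∧
        5 ≤ Nat.card {x : V // σ x = x})) (v : V) :
    c2 2 (del G v) = 0 ∧ ¬ ∀ p : ℕ, p.Prime → c2 p (del G v) = -1 := by
  have key : c2 2 (del G v) = 0 := by
    rcases h with h | ⟨S, h2, hc⟩ | ⟨σ, h2, hne, h5⟩
    · exact c2_of_bipartite G hG h v
    · exact c2_of_components G hG S h2 hc v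
    · exact c2_of_involution G hG σ h2 hne h5 v
  refine ⟨key, fun hp => ?_⟩
  have := hp 2 Nat.prime_two
  rw [key] at this
  exact absurd this (by decide)

end Pool.Agent.Results.MP_06b34c_co.VanishingClasses
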